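import Mathlib

set_option autoImplicit false

open Filter Topology BoundedContinuousFunction Metric Set

namespace Pool.Agent.H.MP_33c00b_an

def nn : ℕ → ℕ
  | 0 => 0
  | k + 1 => 2 * nn k + 8 * (k + 1)

theorem nn_lt' {k l : ℕ} (h : k < l) : 2 * nn k + 8 * l ≤ nn l := by
  induction l, h using Nat.le_induction with
  | base => simp [nn]
  | succ l _ ih => rw [nn]; omega

theorem nn_lt {k l : ℕ} (h : k < l) : 2 * (nn k : ℝ) + 8 * l ≤ nn l := by
  exact_mod_cast nn_lt' h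

theorem nn_ge' (k : ℕ) : 8 * k ≤ nn k := by cases k <;> simp [nn]

def Z (t : ℕ) : Set ℝ :=
  {z | 0 ≤ z ∧ ∀ k l : ℕ, k < l → k ≠ t → 4 * (k : ℝ) < |z - (nn l - nn k)|}

theorem zero_mem (t : ℕ) : (0 : ℝ) ∈ Z t := by
  refine ⟨le_rfl, fun k l h _ => ?_⟩
  have h1 := nn_lt h
  have h2 : (k : ℝ) < l := by exact_mod_cast h
  have h3 : (0 : ℝ) ≤ nn k := by positivity
  have h4 : (0 : ℝ) ≤ k := by positivity
  rw [lt_abs]; right; linarith

theorem sep {k l k' l' : ℕ} (h : k < l) (h' : k' < l') (hk : k ≠ k') (hl : l' ≤ l) :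
    4 * (k : ℝ) + 4 * k' < |((nn l : ℝ) - nn k) - (nn l' - nn k')| := by
  have h3 : (0 : ℝ) ≤ nn k := by positivity
  have h3' : (0 : ℝ) ≤ nn k' := by positivity
  rw [lt_abs]
  rcases hl.eq_or_lt with rfl | hl
  · rcases lt_or_gt_of_ne hk with hk | hk
    · have h1 := nn_lt hk
      have h2 : (k : ℝ) < k' := by exact_mod_cast hk
      left; linarith
    have h1 := nn_lt hk
    have h2 : (k' : ℝ) < k := by exact_mod_cast hk
    right; linarith
  have h1 := nn_lt h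
  have h2 := nn_lt hl
  have h4 : (k : ℝ) < l := by exact_mod_cast h
  have h5 : (k' : ℝ) < l := by exact_mod_cast h'.trans hl
  left; linarith

theorem ex_mem {m : ℝ} (hm : 0 ≤ m) : ∃ t, m ∈ Z t := by
  by_cases h : m ∈ Z 0
  · exact ⟨0, h⟩
  simp only [Z, mem_ofPred_eq, hm, true_and, not_forall, not_lt] at h
  obtain ⟨k, l, hkl, -, h⟩ := h
  refine ⟨k, hm, fun k' l' h' hk => ?_⟩
  have : 4 * (k : ℝ) + 4 * k' < |((nn l : ℝ) - nn k) - (nn l' - nn k')| := by
    rcases le_total l' l with hl | hl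
    · exact sep hkl h' hk.symm hl
    rw [abs_sub_comm, add_comm]; exact sep h' hkl hk hl
  have h2 := abs_sub_le ((nn l : ℝ) - nn k) m (nn l' - nn k')
  rw [abs_sub_comm _ m] at h2
  linarith

noncomputable def rho (j : ℤ) (t : ℕ) : ℝ := infDist (j : ℝ) (Z t)

theorem rho_sub (i j : ℤ) (t : ℕ) : rho i t - rho j t ≤ |(i : ℝ) - j| := by
  have := infDist_le_infDist_add_dist (x := (i : ℝ)) (y := (j : ℝ)) (s := Z t)
  rw [Real.dist_eq] at this
  unfold rho; linarith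

theorem rho_zero (t : ℕ) : rho 0 t = 0 := by
  simpa [rho] using infDist_zero_of_mem (zero_mem t)

theorem rho_le (j : ℤ) (t : ℕ) : rho j t ≤ |(j : ℝ)| := by
  simpa [rho_zero] using rho_sub j 0 t

theorem rho_neg (j : ℤ) (t : ℕ) : -(j : ℝ) ≤ rho j t :=
  (le_infDist ⟨0, zero_mem t⟩).2 fun y hy => by
    rw [Real.dist_eq, le_abs]; right; linarith [hy.1]

theorem rho_ex (m : ℕ) : ∃ t, rho m t = 0 := by
  obtain ⟨t, ht⟩ := ex_mem (m := m) (by positivity)
  exact ⟨t, by simpa [rho] using infDist_zero_of_mem ht⟩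

theorem rho_win {k l t : ℕ} (hl : l ≠ k) (ht : t ≠ k) {j : ℤ} (hj : |j| ≤ k) :
    3 * (k : ℝ) ≤ rho (j + (nn l - nn k)) t := by
  have hj' : |(j : ℝ)| ≤ k := by exact_mod_cast hj
  rcases lt_or_gt_of_ne hl with hl | hl
  · refine le_trans ?_ (rho_neg _ _)
    have h1 := nn_lt hl
    have h3 : (0 : ℝ) ≤ nn l := by positivity
    have h4 : (0 : ℝ) ≤ k := by positivity
    have := (abs_le.1 hj').2
    push_cast; linarith
  refine (le_infDist ⟨0, zero_mem t⟩).2 fun y hy => ?_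
  have h1 := hy.2 k l hl ht.symm
  have h2 := abs_sub_le y ((j : ℝ) + (nn l - nn k)) (nn l - nn k)
  rw [add_sub_cancel_right] at h2
  rw [Real.dist_eq, abs_sub_comm]
  push_cast; linarith

theorem rho_win0 {k t : ℕ} {j : ℤ} (hj : |j| ≤ k) : 3 * (k : ℝ) ≤ rho (j + -nn k) t := by
  have hj' : |(j : ℝ)| ≤ k := by exact_mod_cast hj
  refine le_trans ?_ (rho_neg _ _)
  have h1 : 8 * (k : ℝ) ≤ nn k := by exact_mod_cast nn_ge' k
  have h4 : (0 : ℝ) ≤ k := by positivity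
  have := (abs_le.1 hj').2
  push_cast; linarith

abbrev Y := (ℤ × ℕ) →ᵇ ℂ

noncomputable def W (a : ℤ × ℕ → ℂ) (C : ℝ) (ha : ∀ p, ‖a p‖ ≤ C) (m : ℤ) : Y →L[ℂ] Y :=
  LinearMap.mkContinuous
    { toFun := fun f => ofNormedAddCommGroupDiscrete (fun p => a p * f (p.1 - m, p.2)) (C * ‖f‖)
        fun p => by
          rw [norm_mul]
          exact mul_le_mul (ha p) (f.norm_coe_le_norm _) (norm_nonneg _)
            ((norm_nonneg _).trans (ha p))
      map_add' := fun f g => by ext p; simp [mul_add]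
      map_smul' := fun c f => by ext p; simp [mul_left_comm] } C fun f => by
    have hC := (norm_nonneg _).trans (ha 0)
    refine (norm_le (by positivity)).2 fun p => ?_
    change ‖a p * _‖ ≤ _
    rw [norm_mul]
    exact mul_le_mul (ha p) (f.norm_coe_le_norm _) (norm_nonneg _) hC

theorem W_apply (a : ℤ × ℕ → ℂ) (C : ℝ) (ha : ∀ p, ‖a p‖ ≤ C) (m : ℤ) (f : Y) (p : ℤ × ℕ) :
    W a C ha m f p = a p * f (p.1 - m, p.2) := rfl

noncomputable def S (m : ℤ) : Y →L[ℂ] Y :=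
  W (fun p => (Real.exp (rho (p.1 - m) p.2 - rho p.1 p.2) : ℝ)) (Real.exp |(m : ℝ)|) (fun p => by
    rw [Complex.norm_real, Real.norm_of_nonneg (Real.exp_pos _).le, Real.exp_le_exp]
    simpa using rho_sub (p.1 - m) p.1 p.2) m

theorem S_apply (m : ℤ) (f : Y) (p : ℤ × ℕ) :
    S m f p = (Real.exp (rho (p.1 - m) p.2 - rho p.1 p.2) : ℝ) * f (p.1 - m, p.2) := rfl

theorem S_S (m n : ℤ) (f : Y) : S m (S n f) = S (m + n) f := by
  ext p
  simp only [S_apply, ← mul_assoc, ← Complex.ofReal_mul, ← Real.exp_add, sub_sub]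
  congr 3; ring

theorem S_zero (f : Y) : S 0 f = f := by ext p; simp [S_apply]

theorem S_pow (n : ℕ) (f : Y) : (S 1 ^ n) f = S n f := by
  induction n with
  | zero => simp [S_zero]
  | succ n ih => rw [pow_succ', mul_apply_eq_comp, ih, S_S]; congr 2; push_cast; ring

noncomputable def P (k : ℕ) : Y →L[ℂ] Y :=
  W (fun p => if |p.1| ≤ k ∧ p.2 ≠ k then 1 else 0) 1 (fun p => by split_ifs <;> simp) 0

theorem P_apply (k : ℕ) (f : Y) (p : ℤ × ℕ) :
    P k f p = if |p.1| ≤ k ∧ p.2 ≠ k then f p else 0 := by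
  simp [P, W_apply]

theorem SP_le {k : ℕ} {m : ℤ} 
    (h : ∀ (j : ℤ) t, |j| ≤ k → t ≠ k → 3 * (k : ℝ) ≤ rho (j + m) t) {y : Y}
    (hy : ‖y‖ ≤ Real.exp k) : ‖S m (P k y)‖ ≤ Real.exp (-k) := by
  refine (norm_le (Real.exp_pos _).le).2 fun p => ?_
  rw [S_apply, P_apply]
  split_ifs with hp
  · have h1 := h _ _ hp.1 hp.2
    have h2 := rho_le (p.1 - m) p.2
    have h3 : |((p.1 - m : ℤ) : ℝ)| ≤ k := by exact_mod_cast hp.1
    simp only [sub_add_cancel] at h1
    rw [norm_mul, Complex.norm_real, Real.norm_of_nonneg (Real.exp_pos _).le]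
    refine (mul_le_mul_of_nonneg_left ((y.norm_coe_le_norm _).trans hy)
      (Real.exp_pos _).le).trans ?_
    rw [← Real.exp_add, Real.exp_le_exp]; linarith
  simp [(Real.exp_pos _).le]

theorem wnull (φ : Y →L[ℂ] ℂ) (f : ℕ → Y) (M : ℝ) (hb : ∀ l, ‖f l‖ ≤ M)
    (hd : ∀ l l' p, l ≠ l' → f l p = 0 ∨ f l' p = 0) :
    Tendsto (fun l => φ (f l)) atTop (𝓝 0) := by
  have hM := (norm_nonneg _).trans (hb 0)
  have : ∀ l, ∃ ε : ℂ, ‖ε‖ = 1 ∧ ε * φ (f l) = ‖φ (f l)‖ := fun l => by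
    obtain ⟨c, h1, h2⟩ := Complex.exists_norm_eq_mul_self (φ (f l))
    exact ⟨c, h1, h2.symm⟩
  choose ε h1 h2 using this
  refine (summable_of_sum_le (c := ‖φ‖ * M) (fun l => norm_nonneg (φ (f l)))
    fun s => ?_).of_norm.tendsto_atTop_zero
  have h3 : ‖∑ l ∈ s, ε l • f l‖ ≤ M := by
    refine (norm_le hM).2 fun p => ?_
    rw [BoundedContinuousFunction.sum_apply]
    by_cases h : ∃ l ∈ s, f l p ≠ 0
    · obtain ⟨l, hl, h⟩ := h
      rw [Finset.sum_eq_single_of_mem l hl fun l' _ hl' => by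
        simp [(hd l' l p hl').resolve_right h]]
      simpa [h1] using ((f l).norm_coe_le_norm p).trans (hb l)
    push Not at h
    rw [Finset.sum_eq_zero fun l hl => by simp [h l hl]]
    simpa using hM
  have h4 : φ (∑ l ∈ s, ε l • f l) = (∑ l ∈ s, ‖φ (f l)‖ : ℝ) := by simp [h2]
  have h5 := φ.le_opNorm_of_le h3
  rw [h4, Complex.norm_real] at h5
  exact (le_abs_self _).trans h5

end Pool.Agent.H.MP_33c00b_an
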