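import Pool.Agent.H.MP_33c00b_an.A

set_option autoImplicit false

open Filter Topology BoundedContinuousFunction Metric Set

namespace Pool.Agent.H.MP_33c00b_an

theorem key (φ : Y →L[ℂ] ℂ) (y : ℕ → Y) (hy : ∀ k, ‖y k‖ ≤ Real.exp k) :
    Tendsto (fun l => φ (S (nn l) (∑' k, S (-nn k) (P k (y k)))) - φ (P l (y l))) atTop (𝓝 0) := by
  have hs : Summable fun k => S (-nn k) (P k (y k)) :=
    .of_norm_bounded Real.summable_exp_neg_nat fun k =>
      SP_le (fun _ _ hj _ => rho_win0 hj) (hy k)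
  have hb : ∀ k l, l ≠ k → ‖S (nn l - nn k) (P k (y k))‖ ≤ Real.exp (-k) := fun k l h =>
    SP_le (fun _ _ hj ht => rho_win h ht hj) (hy k)
  have h1 : ∀ l, φ (S (nn l) (∑' k, S (-nn k) (P k (y k)))) - φ (P l (y l)) =
      ∑' k, if k = l then 0 else φ (S (nn l - nn k) (P k (y k))) := fun l => by
    have := ((φ ∘L S (nn l)).hasSum hs.hasSum)
    simp only [ContinuousLinearMap.comp_apply, S_S, ← sub_eq_add_neg] at this
    rw [← this.tsum_eq, this.summable.tsum_eq_add_tsum_ite l]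
    simp [S_zero]
  simp only [h1]
  have := tendsto_tsum_of_dominated_convergence (𝓕 := atTop)
    (f := fun l k => if k = l then 0 else φ (S (nn l - nn k) (P k (y k)))) (g := fun _ => 0)
    (Real.summable_exp_neg_nat.mul_left ‖φ‖) (fun k => ?_) (.of_forall fun l k => ?_)
  · simpa using this
  · rw [← tendsto_add_atTop_iff_nat (k + 1)]
    have h2 : ∀ l, k ≠ l + (k + 1) := fun l => by omega
    simp only [h2, if_false]
    refine wnull φ _ _ (fun l => hb k _ (h2 l).symm) fun l l' p h => ?_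
    wlog hl : l < l' generalizing l l'
    · exact (this l' l h.symm (by omega)).symm
    by_contra hc
    simp only [S_apply, P_apply, not_or, mul_eq_zero, ite_eq_right_iff, not_forall] at hc
    obtain ⟨⟨-, ⟨h3, -⟩, -⟩, -, ⟨h4, -⟩, -⟩ := hc
    have h5 := nn_lt' (show l + (k + 1) < l' + (k + 1) by omega)
    rw [abs_le] at h3 h4
    omega
  split_ifs with h
  · simp only [norm_zero]; positivity
  exact φ.le_opNorm_of_le (hb k l (Ne.symm h))

noncomputable def e : Y :=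
  ofNormedAddCommGroupDiscrete (fun p => if p.1 = 0 then 1 else 0) 1 fun p => by
    split_ifs <;> simp

theorem e_apply (p : ℤ × ℕ) : e p = if p.1 = 0 then 1 else 0 := rfl

theorem lower {f : Y} (hf : ‖f - e‖ < 1 / 2) (m : ℕ) : 1 / 2 ≤ ‖S m f‖ := by
  obtain ⟨t, ht⟩ := rho_ex m
  refine le_trans ?_ ((S m f).norm_coe_le_norm (m, t))
  have h1 := ((f - e).norm_coe_le_norm (0, t)).trans_lt hf
  have h2 := norm_sub_norm_le (1 : ℂ) (f (0, t))
  rw [norm_sub_rev] at h2
  simp only [S_apply, sub_self, rho_zero, ht, Real.exp_zero, Complex.ofReal_one, one_mul]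
  simp only [BoundedContinuousFunction.sub_apply, e_apply, if_true] at h1
  rw [norm_one] at h2
  linarith

noncomputable def F : ℤ ⊕ ℕ → Y →L[ℂ] Y := Sum.elim S P

noncomputable def D : Submodule ℂ Y :=
  Submodule.span ℂ (range fun L : List (ℤ ⊕ ℕ) => L.foldr (fun i f => F i f) e)

noncomputable def X : Submodule ℂ Y := D.topologicalClosure

theorem F_mem (i : ℤ ⊕ ℕ) {f : Y} (hf : f ∈ X) : F i f ∈ X := by
  refine map_mem_closure (F i).continuous hf fun g hg => ?_
  have : D ≤ D.comap (F i).toLinearMap := Submodule.span_le.2 (by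
    rintro _ ⟨L, rfl⟩
    exact Submodule.subset_span ⟨i :: L, rfl⟩)
  exact this hg

theorem e_mem : e ∈ X := D.le_topologicalClosure (Submodule.subset_span ⟨[], rfl⟩)

theorem D_fin {f : Y} (hf : f ∈ D) : ∃ N : ℕ, ∀ p : ℤ × ℕ, (N : ℤ) < |p.1| → f p = 0 := by
  induction hf using Submodule.span_induction with
  | mem _ h =>
    obtain ⟨L, rfl⟩ := h
    induction L with
    | nil => exact ⟨0, fun p hp => by simp [e_apply, abs_pos.1 hp]⟩
    | cons i L ih =>
      obtain ⟨N, h⟩ := ih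
      rcases i with m | k
      · refine ⟨N + m.natAbs, fun p hp => ?_⟩
        have := h (p.1 - m, p.2) (by
          have := abs_sub_abs_le_abs_sub p.1 m
          push_cast at hp
          simp only; linarith)
        simp only [List.foldr_cons, F, Sum.elim_inl, S_apply] at this ⊢
        rw [this, mul_zero]
      refine ⟨N, fun p hp => ?_⟩
      have := h p hp
      simp only [List.foldr_cons, F, Sum.elim_inr, P_apply] at this ⊢
      rw [this, ite_self]
  | zero => exact ⟨0, fun _ _ => rfl⟩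
  | add f g _ _ h1 h2 =>
    obtain ⟨N, h1⟩ := h1
    obtain ⟨M, h2⟩ := h2
    exact ⟨N + M, fun p hp => by simp [h1 p (by omega), h2 p (by omega)]⟩
  | smul c f _ h =>
    obtain ⟨N, h⟩ := h
    exact ⟨N, fun p hp => by simp [h p hp]⟩

theorem ex_seq : ∃ y : ℕ → Y, (∀ k, y k ∈ X ∧ ‖y k‖ ≤ Real.exp k ∧
      ∀ p : ℤ × ℕ, (k : ℤ) < |p.1| → y k p = 0) ∧
    ∀ f ∈ X, ∃ l : ℕ → ℕ, StrictMono l ∧ Tendsto (fun i => y (l i)) atTop (𝓝 f) := by
  classical
  obtain ⟨s, h1, h2, h3⟩ := (show TopologicalSpace.IsSeparable (D : Set Y) from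
    (countable_range _).isSeparable.span).exists_countable_dense_subset
  obtain ⟨d, rfl⟩ := h2.exists_eq_range (closure_nonempty_iff.1 ⟨0, h3 D.zero_mem⟩)
  refine ⟨fun k => if ‖d k.unpair.1‖ ≤ Real.exp k ∧
    ∀ p : ℤ × ℕ, (k : ℤ) < |p.1| → d k.unpair.1 p = 0 then d k.unpair.1 else 0, fun k => ?_,
    fun f hf => ?_⟩
  · simp only
    split_ifs with h
    · exact ⟨D.le_topologicalClosure (h1 ⟨_, rfl⟩), h⟩
    exact ⟨X.zero_mem, by simp [(Real.exp_pos _).le], fun _ _ => rfl⟩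
  have hf' : f ∈ closure (range d) := closure_minimal h3 isClosed_closure hf
  obtain ⟨l, h4, h5⟩ := extraction_forall_of_frequently (P := fun n k => dist
    (if ‖d k.unpair.1‖ ≤ Real.exp k ∧
      ∀ p : ℤ × ℕ, (k : ℤ) < |p.1| → d k.unpair.1 p = 0 then d k.unpair.1 else 0) f <
        1 / ((n : ℝ) + 1)) fun n => by
    obtain ⟨_, ⟨i, rfl⟩, hi⟩ := Metric.mem_closure_iff.1 hf' _ (Nat.one_div_pos_of_nat (n := n))
    obtain ⟨N, hN⟩ := D_fin (h1 ⟨i, rfl⟩)
    obtain ⟨M, hM⟩ := exists_nat_ge ‖d i‖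
    refine frequently_atTop.2 fun a => ⟨Nat.pair i (a + N + M), ?_⟩
    have h6 := Nat.right_le_pair i (a + N + M)
    refine ⟨by omega, ?_⟩
    rw [Nat.unpair_pair, if_pos, dist_comm]
    · exact hi
    refine ⟨?_, fun p hp => hN p (by omega)⟩
    have h7 : (M : ℝ) ≤ Nat.pair i (a + N + M) := by exact_mod_cast (by omega)
    linarith [Real.add_one_le_exp (Nat.pair i (a + N + M) : ℝ)]
  exact ⟨l, h4, tendsto_iff_dist_tendsto_zero.2 (squeeze_zero (fun _ => dist_nonneg)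
    (fun n => (h5 n).le) tendsto_one_div_add_atTop_nhds_zero_nat)⟩

theorem weak : ∃ x ∈ X, ∀ f ∈ X, ∃ n : ℕ → ℕ, ∀ φ : Y →L[ℂ] ℂ,
    Tendsto (fun i => φ (S (n i) x)) atTop (𝓝 (φ f)) := by
  obtain ⟨y, h1, h2⟩ := ex_seq
  have hs : Summable fun k => S (-nn k) (P k (y k)) :=
    .of_norm_bounded Real.summable_exp_neg_nat fun k =>
      SP_le (fun _ _ hj _ => rho_win0 hj) (h1 k).2.1
  refine ⟨∑' k, S (-nn k) (P k (y k)), ?_, fun f hf => ?_⟩
  · refine D.isClosed_topologicalClosure.mem_of_tendsto hs.hasSum (.of_forall fun s => ?_)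
    exact X.sum_mem fun k _ => F_mem (.inl _) (F_mem (.inr k) (h1 k).1)
  obtain ⟨l, h3, h4⟩ := h2 f hf
  refine ⟨fun i => nn (l i), fun φ => ?_⟩
  obtain ⟨M, hM⟩ := h4.norm.bddAbove_range
  have h5 := (key φ y fun k => (h1 k).2.1).comp h3.tendsto_atTop
  have h6 := wnull φ (fun i => y (l i) - P (l i) (y (l i))) M (fun i => ?_) fun i j p hij => ?_
  · have := (h5.sub h6).add ((φ.continuous.tendsto f).comp h4)
    simpa [Function.comp_def] using this
  · have h7 : ‖y (l i)‖ ≤ M := hM ⟨i, rfl⟩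
    refine (norm_le ((norm_nonneg _).trans h7)).2 fun p => ?_
    rw [BoundedContinuousFunction.sub_apply, P_apply]
    split_ifs
    · simpa using (norm_nonneg _).trans h7
    simpa using ((y _).norm_coe_le_norm p).trans h7
  have h8 : ∀ k, p.2 ≠ k → (y k - P k (y k)) p = 0 := fun k hk => by
    rw [BoundedContinuousFunction.sub_apply, P_apply]
    split_ifs with h
    · simp
    simpa using (h1 k).2.2 p (by simpa [hk] using h)
  by_cases h : p.2 = l i
  · exact Or.inr (h8 _ fun h' => hij (h3.injective (h.symm.trans h')))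
  exact Or.inl (h8 _ h)

theorem main : ∃ (B : Type) (_ : NormedAddCommGroup B) (_ : NormedSpace ℂ B) (_ : CompleteSpace B)
    (T : B →L[ℂ] B), (∃ x : B, ∀ y : B, ∃ n : ℕ → ℕ, ∀ φ : B →L[ℂ] ℂ,
      Tendsto (fun k => φ ((T ^ n k) x)) atTop (𝓝 (φ y))) ∧
    ¬ ∃ x : B, Dense (range fun n : ℕ => (T ^ n) x) := by
  let T : X →L[ℂ] X := (S 1 ∘L X.subtypeL).codRestrict X fun x => F_mem (.inl 1) x.2
  have hT : ∀ (n : ℕ) (x : X), ((T ^ n) x : Y) = S n x := fun n x => by
    rw [← S_pow]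
    induction n with
    | zero => rfl
    | succ n ih => rw [pow_succ', pow_succ', mul_apply_eq_comp, mul_apply_eq_comp, ← ih]; rfl
  refine ⟨X, _, _, D.isClosed_topologicalClosure.completeSpace_coe, T, ?_, ?_⟩
  · obtain ⟨x, hx, h⟩ := weak
    refine ⟨⟨x, hx⟩, fun y => ?_⟩
    obtain ⟨n, h⟩ := h y y.2
    refine ⟨n, fun φ => ?_⟩
    obtain ⟨ψ, h1, -⟩ := exists_extension_norm_eq X φ
    simpa only [← h1, hT] using h ψ
  rintro ⟨x, hx⟩
  obtain ⟨_, ⟨n, rfl⟩, hn⟩ := Metric.mem_closure_iff.1 (hx ⟨e, e_mem⟩) (1 / 2) (by norm_num)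
  have : Nontrivial X := ⟨⟨e, e_mem⟩, 0, fun h => by
    simpa [e_apply] using congrArg (fun f : X => f.1 (0, 0)) h⟩
  have h1 := hx.sdiff_finite ((finite_lt_nat n).image fun m => (T ^ m) x)
  obtain ⟨_, ⟨⟨m, rfl⟩, hm⟩, h2⟩ := Metric.mem_closure_iff.1 (h1 0) (1 / 2) (by norm_num)
  obtain ⟨m, rfl⟩ := Nat.exists_eq_add_of_le (not_lt.1 fun h => hm ⟨m, h, rfl⟩)
  rw [dist_comm, Subtype.dist_eq, dist_eq_norm] at hn h2
  have h3 := lower hn m
  simp only [hT, S_S] at h3 h2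
  simp only [ZeroMemClass.coe_zero, sub_zero, Nat.cast_add, add_comm (n : ℤ)] at h2
  linarith

end Pool.Agent.H.MP_33c00b_an
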